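import Pool.Agent.APM54.Count

/-!
# MNX: pigeonhole and decoupling, with exact constants
-/

set_option autoImplicit false

namespace Pool.Agent.MNX

open Finset Pool.Agent.APM54
open scoped Classical

theorem count_card_pairs (m : ℕ) :
    2 * (((range m) ×ˢ (range m)).filter (fun q => q.1 < q.2)).card + m ≤ m ^ 2 := by
  have h1 : (((range m) ×ˢ (range m)).filter (fun q => q.1 < q.2)).card =
      (((range m) ×ˢ (range m)).filter (fun q => q.2 < q.1)).card := by
    refine Finset.card_bij (fun q _ => (q.2, q.1)) ?_ ?_ ?_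
    · intro q hq
      simp only [Finset.mem_filter, Finset.mem_product] at hq ⊢
      exact ⟨⟨hq.1.2, hq.1.1⟩, hq.2⟩
    · intro q _ q' _ h
      have := Prod.ext_iff.1 h
      exact Prod.ext this.2 this.1
    · intro q hq
      refine ⟨(q.2, q.1), ?_, rfl⟩
      simp only [Finset.mem_filter, Finset.mem_product] at hq ⊢
      exact ⟨⟨hq.1.2, hq.1.1⟩, hq.2⟩
  have h3 : m = ((range m).image (fun x => (x, x))).card := by
    rw [Finset.card_image_of_injective, Finset.card_range]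
    intro x y h
    exact (Prod.ext_iff.1 h).1
  have h2 : (((range m) ×ˢ (range m)).filter (fun q => q.1 < q.2)).card +
      (((range m) ×ˢ (range m)).filter (fun q => q.2 < q.1)).card +
      ((range m).image (fun x => (x, x))).card ≤
      ((range m) ×ˢ (range m)).card := by
    rw [← Finset.card_union_of_disjoint, ← Finset.card_union_of_disjoint]
    · refine Finset.card_le_card ?_
      intro q hq
      rw [Finset.mem_union, Finset.mem_union, Finset.mem_filter, Finset.mem_filter,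
        Finset.mem_image] at hq
      rcases hq with (hq | hq) | ⟨x, hx, rfl⟩
      · exact hq.1
      · exact hq.1
      · exact Finset.mem_product.2 ⟨hx, hx⟩
    · rw [Finset.disjoint_left]
      intro q hq hq'
      rw [Finset.mem_union, Finset.mem_filter, Finset.mem_filter] at hq
      rw [Finset.mem_image] at hq'
      obtain ⟨x, -, rfl⟩ := hq'
      omega
    · rw [Finset.disjoint_left]
      intro q hq hq'
      rw [Finset.mem_filter] at hq hq'
      omega
  rw [← h3, Finset.card_product, Finset.card_range] at h2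
  rw [sq]
  omega

section main

variable {T D : ℕ} {Θ ι : Type} [Fintype Θ] [Nonempty Θ] [Fintype ι]

/-- two levels at which the random network is right at the same time -/
theorem exists_pair' (hD : 1 ≤ D) (hT : T + 1 = 2 * D) (p : ι → ℝ) (hp : ∀ c, 0 ≤ p c)
    (hp1 : ∑ c, p c = 1) (ok : ι → ℕ → (Fin T → Θ) → Prop)
    (hok : ∀ a ≤ T, ∀ θ, (1 : ℝ) / D ≤ ∑ c, p c * ind (ok c a θ)) :
    ∃ a b : ℕ, a < b ∧ b ≤ T ∧
      (Fintype.card (Fin T → Θ) : ℝ) / (D * T) ≤
        ∑ c, p c * ∑ θ, ind (ok c a θ ∧ ok c b θ) := by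
  by_contra hcon
  push Not at hcon
  set N : ℝ := (Fintype.card (Fin T → Θ) : ℝ) with hN
  set P := ((range (T + 1)) ×ˢ (range (T + 1))).filter (fun q => q.1 < q.2) with hP
  have hDpos : (0 : ℝ) < D := by exact_mod_cast hD
  have hTpos : (0 : ℝ) < T := by
    have : 0 < T := by omega
    exact_mod_cast this
  have hNpos : 0 < N := by rw [hN]; exact_mod_cast Fintype.card_pos
  have hPcard : (P.card : ℝ) ≤ D * T := by
    have h := count_card_pairs (T + 1)
    rw [← hP] at h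
    have h' : (2 : ℝ) * P.card + ((T : ℝ) + 1) ≤ ((T : ℝ) + 1) ^ 2 := by exact_mod_cast h
    have h'' : (T : ℝ) + 1 = 2 * D := by exact_mod_cast hT
    nlinarith
  -- pointwise
  have hpt : ∀ θ : Fin T → Θ, (1 : ℝ) ≤ ∑ c, p c * ∑ q ∈ P, ind (ok c q.1 θ ∧ ok c q.2 θ) := by
    intro θ
    have h1 : ∀ c, (∑ a ∈ range (T + 1), ind (ok c a θ)) - 1 ≤
        ∑ q ∈ P, ind (ok c q.1 θ ∧ ok c q.2 θ) := by
      intro c
      have e1 : ∑ a ∈ range (T + 1), ind (ok c a θ) =
          (((range (T + 1)).filter (fun a => ok c a θ)).card : ℝ) := sum_ind _ _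
      have e2 : ∑ q ∈ P, ind (ok c q.1 θ ∧ ok c q.2 θ) =
          ((P.filter (fun q => ok c q.1 θ ∧ ok c q.2 θ)).card : ℝ) := by
        rw [sum_ind]
        congr!
      rw [e1, e2]
      have h2 := pairs_ge ((range (T + 1)).filter (fun a => ok c a θ))
      have h3 : ((((range (T + 1)).filter (fun a => ok c a θ)) ×ˢ
          ((range (T + 1)).filter (fun a => ok c a θ))).filter (fun q => q.1 < q.2)).card ≤
          (P.filter (fun q => ok c q.1 θ ∧ ok c q.2 θ)).card := by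
        refine Finset.card_le_card ?_
        intro q hq
        simp only [hP, Finset.mem_filter, Finset.mem_product] at hq ⊢
        exact ⟨⟨⟨hq.1.1.1, hq.1.2.1⟩, hq.2⟩, hq.1.1.2, hq.1.2.2⟩
      have h4 : (((range (T + 1)).filter (fun a => ok c a θ)).card : ℝ) ≤
          ((P.filter (fun q => ok c q.1 θ ∧ ok c q.2 θ)).card : ℝ) + 1 := by
        exact_mod_cast h2.trans (Nat.add_le_add_right h3 1)
      linarith
    have h2 : ∑ c, p c * ((∑ a ∈ range (T + 1), ind (ok c a θ)) - 1) ≤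
        ∑ c, p c * ∑ q ∈ P, ind (ok c q.1 θ ∧ ok c q.2 θ) :=
      Finset.sum_le_sum fun c _ => mul_le_mul_of_nonneg_left (h1 c) (hp c)
    refine le_trans ?_ h2
    have h3 : ∑ c, p c * ((∑ a ∈ range (T + 1), ind (ok c a θ)) - 1) =
        (∑ a ∈ range (T + 1), ∑ c, p c * ind (ok c a θ)) - 1 := by
      rw [Finset.sum_comm]
      have h31 : ∀ c, p c * ((∑ a ∈ range (T + 1), ind (ok c a θ)) - 1) =
          (∑ a ∈ range (T + 1), p c * ind (ok c a θ)) - p c := by
        intro c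
        rw [mul_sub, mul_one, Finset.mul_sum]
      rw [Finset.sum_congr rfl fun c _ => h31 c, Finset.sum_sub_distrib, hp1]
    rw [h3]
    have h4 : ∑ a ∈ range (T + 1), (1 : ℝ) / D ≤
        ∑ a ∈ range (T + 1), ∑ c, p c * ind (ok c a θ) :=
      Finset.sum_le_sum fun a ha => hok a (Nat.lt_succ_iff.1 (Finset.mem_range.1 ha)) θ
    rw [Finset.sum_const, Finset.card_range, nsmul_eq_mul] at h4
    have h5 : ((T + 1 : ℕ) : ℝ) * (1 / D) = 2 := by
      rw [hT]
      push_cast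
      field_simp
    linarith
  have hsum : N ≤ ∑ q ∈ P, ∑ c, p c * ∑ θ, ind (ok c q.1 θ ∧ ok c q.2 θ) := by
    have h1 : ∑ θ : Fin T → Θ, (1 : ℝ) ≤
        ∑ θ, ∑ c, p c * ∑ q ∈ P, ind (ok c q.1 θ ∧ ok c q.2 θ) :=
      Finset.sum_le_sum fun θ _ => hpt θ
    rw [Finset.sum_const, nsmul_eq_mul, mul_one, Finset.card_univ, ← hN] at h1
    refine h1.trans (le_of_eq ?_)
    rw [Finset.sum_comm]
    rw [Finset.sum_comm (s := P)]
    refine Finset.sum_congr rfl fun c _ => ?_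
    rw [← Finset.mul_sum, ← Finset.mul_sum, Finset.sum_comm]
  have hPne : P.Nonempty := by
    refine ⟨(0, 1), ?_⟩
    simp only [hP, Finset.mem_filter, Finset.mem_product, Finset.mem_range]
    omega
  have hlt : ∑ q ∈ P, ∑ c, p c * ∑ θ, ind (ok c q.1 θ ∧ ok c q.2 θ) <
      ∑ _q ∈ P, N / (D * T) := by
    refine Finset.sum_lt_sum_of_nonempty hPne fun q hq => ?_
    simp only [hP, Finset.mem_filter, Finset.mem_product, Finset.mem_range] at hq
    exact hcon q.1 q.2 hq.2 (by omega)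
  rw [Finset.sum_const, nsmul_eq_mul] at hlt
  have h6 : (P.card : ℝ) * (N / (D * T)) ≤ N := by
    rw [mul_div_assoc', div_le_iff₀ (by positivity)]
    nlinarith
  linarith

/-- the number of places strictly between two levels -/
theorem count_places {a b : ℕ} (hab : a < b) (hbT : b ≤ T) :
    ((Finset.univ.filter (fun t : Fin T => a < t.val ∧ t.val < b)).card : ℝ) ≤ (T : ℝ) - 1 := by
  have h1 : (Finset.univ.filter (fun t : Fin T => a < t.val ∧ t.val < b)).card + 1 ≤ T := by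
    have h2 : (Finset.univ.filter (fun t : Fin T => a < t.val ∧ t.val < b)) ⊆
        Finset.univ.erase (⟨a, by omega⟩ : Fin T) := by
      intro t ht
      rw [Finset.mem_filter] at ht
      rw [Finset.mem_erase]
      refine ⟨?_, Finset.mem_univ _⟩
      intro h
      have := congrArg Fin.val h
      simp only at this
      omega
    have h3 := Finset.card_le_card h2
    rw [Finset.card_erase_of_mem (Finset.mem_univ _), Finset.card_univ, Fintype.card_fin] at h3
    omega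
  have h4 : ((Finset.univ.filter (fun t : Fin T => a < t.val ∧ t.val < b)).card : ℝ) + 1 ≤ T := by
    exact_mod_cast h1
  linarith

/-- pairs which are not generic at some place of `D'` -/
theorem count_nongen (gen : Θ → Θ → Prop) (β : ℝ)
    (hβ : ∑ x : Θ, ∑ y : Θ, ind (¬ gen x y) ≤ β * (Fintype.card Θ : ℝ) ^ 2) (D' : Fin T → Prop) :
    ∑ η : Fin T → Θ, ∑ η' : Fin T → Θ, ind (¬ ∀ t, D' t → gen (η t) (η' t)) ≤
      (Finset.univ.filter D').card * β * (Fintype.card (Fin T → Θ) : ℝ) ^ 2 := by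
  set N : ℝ := (Fintype.card (Fin T → Θ) : ℝ) with hN
  set K : ℝ := (Fintype.card Θ : ℝ) with hK
  have hKpos : 0 < K := by rw [hK]; exact_mod_cast Fintype.card_pos
  have hNpos : 0 < N := by rw [hN]; exact_mod_cast Fintype.card_pos
  -- one coordinate
  have hone : ∀ t : Fin T, ∀ g : Θ → ℝ, K * ∑ η : Fin T → Θ, g (η t) = N * ∑ τ, g τ := by
    intro t g
    have h := sum_update t (fun η : Fin T → Θ => g (η t))
    simp only [Function.update_self] at h
    rw [Finset.sum_const, nsmul_eq_mul, Finset.card_univ] at h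
    rw [hK, hN]
    exact h.symm
  have htwo : ∀ t : Fin T, ∑ η : Fin T → Θ, ∑ η' : Fin T → Θ, ind (¬ gen (η t) (η' t)) ≤
      β * N ^ 2 := by
    intro t
    have h1 : K ^ 2 * ∑ η : Fin T → Θ, ∑ η' : Fin T → Θ, ind (¬ gen (η t) (η' t)) =
        N ^ 2 * ∑ x : Θ, ∑ y : Θ, ind (¬ gen x y) := by
      have h2 : ∀ η : Fin T → Θ, K * ∑ η' : Fin T → Θ, ind (¬ gen (η t) (η' t)) =
          N * ∑ y, ind (¬ gen (η t) y) := fun η => hone t (fun y => ind (¬ gen (η t) y))
      calc K ^ 2 * ∑ η : Fin T → Θ, ∑ η' : Fin T → Θ, ind (¬ gen (η t) (η' t))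
          = K * ∑ η : Fin T → Θ, K * ∑ η' : Fin T → Θ, ind (¬ gen (η t) (η' t)) := by
            rw [← Finset.mul_sum]
            ring
        _ = K * ∑ η : Fin T → Θ, N * ∑ y, ind (¬ gen (η t) y) := by
            rw [Finset.sum_congr rfl fun η _ => h2 η]
        _ = N * (K * ∑ η : Fin T → Θ, ∑ y, ind (¬ gen (η t) y)) := by
            rw [← Finset.mul_sum]
            ring
        _ = N * (N * ∑ x, ∑ y, ind (¬ gen x y)) := by
            rw [hone t (fun x => ∑ y, ind (¬ gen x y))]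
        _ = _ := by ring
    have h3 : N ^ 2 * ∑ x : Θ, ∑ y : Θ, ind (¬ gen x y) ≤ N ^ 2 * (β * K ^ 2) :=
      mul_le_mul_of_nonneg_left hβ (by positivity)
    have h4 : K ^ 2 * ∑ η : Fin T → Θ, ∑ η' : Fin T → Θ, ind (¬ gen (η t) (η' t)) ≤
        K ^ 2 * (β * N ^ 2) := by
      rw [h1]
      linarith
    exact le_of_mul_le_mul_left h4 (by positivity)
  have hpt : ∀ η η' : Fin T → Θ, ind (¬ ∀ t, D' t → gen (η t) (η' t)) ≤
      ∑ t ∈ Finset.univ.filter D', ind (¬ gen (η t) (η' t)) := by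
    intro η η'
    by_cases h : ∀ t, D' t → gen (η t) (η' t)
    · have : ind (¬ ∀ t, D' t → gen (η t) (η' t)) = 0 := by
        unfold ind
        rw [if_neg]
        exact fun h' => h' h
      rw [this]
      exact Finset.sum_nonneg fun t _ => ind_nonneg _
    · have h0 := h
      push Not at h
      obtain ⟨t, ht1, ht⟩ := h
      have e1 : ind (¬ ∀ t, D' t → gen (η t) (η' t)) = 1 := by
        unfold ind
        rw [if_pos h0]
      have e2 : ind (¬ gen (η t) (η' t)) = 1 := by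
        unfold ind
        rw [if_pos ht]
      rw [e1, ← e2]
      exact Finset.single_le_sum (f := fun t => ind (¬ gen (η t) (η' t)))
        (fun t _ => ind_nonneg _) (Finset.mem_filter.2 ⟨Finset.mem_univ t, ht1⟩)
  calc ∑ η : Fin T → Θ, ∑ η' : Fin T → Θ, ind (¬ ∀ t, D' t → gen (η t) (η' t))
      ≤ ∑ η : Fin T → Θ, ∑ η' : Fin T → Θ,
          ∑ t ∈ Finset.univ.filter D', ind (¬ gen (η t) (η' t)) :=
        Finset.sum_le_sum fun η _ => Finset.sum_le_sum fun η' _ => hpt η η'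
    _ = ∑ t ∈ Finset.univ.filter D',
          ∑ η : Fin T → Θ, ∑ η' : Fin T → Θ, ind (¬ gen (η t) (η' t)) := by
        rw [Finset.sum_comm (s := Finset.univ.filter D')]
        refine Finset.sum_congr rfl fun η _ => ?_
        rw [Finset.sum_comm]
    _ ≤ ∑ _t ∈ Finset.univ.filter D', β * N ^ 2 := Finset.sum_le_sum fun t _ => htwo t
    _ = (Finset.univ.filter D').card * β * N ^ 2 := by
        rw [Finset.sum_const, nsmul_eq_mul]
        ring

/-- pairs which are not generic at some place strictly between `a` and `b` -/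
theorem nongen' (gen : Θ → Θ → Prop) (β : ℝ) (hβ0 : 0 ≤ β)
    (hβ : ∑ x : Θ, ∑ y : Θ, ind (¬ gen x y) ≤ β * (Fintype.card Θ : ℝ) ^ 2) (a b : ℕ)
    (hab : a < b) (hbT : b ≤ T) :
    ∑ η : Fin T → Θ, ∑ η' : Fin T → Θ,
      ind (¬ ∀ t : Fin T, (a < t.val ∧ t.val < b) → gen (η t) (η' t)) ≤
      ((T : ℝ) - 1) * β * (Fintype.card (Fin T → Θ) : ℝ) ^ 2 := by
  have h1 := count_nongen (T := T) gen β hβ (fun t : Fin T => a < t.val ∧ t.val < b)
  refine h1.trans ?_
  have h2 : ((Finset.univ.filter (fun t : Fin T => a < t.val ∧ t.val < b)).card : ℝ) ≤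
      (T : ℝ) - 1 := count_places (T := T) hab hbT
  have h3 : ((Finset.univ.filter (fun t : Fin T => a < t.val ∧ t.val < b)).card : ℝ) * β ≤
      ((T : ℝ) - 1) * β := mul_le_mul_of_nonneg_right h2 hβ0
  refine le_trans (le_of_eq ?_) (mul_le_mul_of_nonneg_right h3
    (by positivity : (0 : ℝ) ≤ (Fintype.card (Fin T → Θ) : ℝ) ^ 2))
  congr!

theorem count' (hD : 1 ≤ D) (hT : T + 1 = 2 * D) (p : ι → ℝ) (hp : ∀ c, 0 ≤ p c)
    (hp1 : ∑ c, p c = 1) (ok : ι → ℕ → (Fin T → Θ) → Prop)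
    (hok : ∀ a ≤ T, ∀ θ, (1 : ℝ) / D ≤ ∑ c, p c * ind (ok c a θ))
    (gen : Θ → Θ → Prop) (β : ℝ) (hβ0 : 0 ≤ β)
    (hβ : ∑ x : Θ, ∑ y : Θ, ind (¬ gen x y) ≤ β * (Fintype.card Θ : ℝ) ^ 2)
    (hpos : 0 < 1 / ((D : ℝ) ^ 2 * (T : ℝ) ^ 2) - ((T : ℝ) - 1) * β) :
    ∃ a b : ℕ, a < b ∧ b ≤ T ∧ ∃ x η η' : Fin T → Θ,
      (∀ t : Fin T, a < t.val → t.val < b → gen (η t) (η' t)) ∧
      (Fintype.card Θ : ℝ) * (1 / ((D : ℝ) ^ 2 * (T : ℝ) ^ 2) - ((T : ℝ) - 1) * β) ≤
        ∑ c, p c * ∑ τ : Θ, ind (ok c a (word a b x η τ) ∧ ok c b (word a b x η' τ)) := by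
  rw [← mul_pow] at hpos ⊢
  obtain ⟨a, b, hab, hbT, hsum⟩ := exists_pair' hD hT p hp hp1 ok hok
  refine ⟨a, b, hab, hbT, ?_⟩
  set N : ℝ := (Fintype.card (Fin T → Θ) : ℝ) with hN
  set K : ℝ := (Fintype.card Θ : ℝ) with hK
  have hKpos : 0 < K := by rw [hK]; exact_mod_cast Fintype.card_pos
  have hNpos : 0 < N := by rw [hN]; exact_mod_cast Fintype.card_pos
  have hDpos : (0 : ℝ) < D := by exact_mod_cast hD
  have hTpos : (0 : ℝ) < T := by
    have : 0 < T := by omega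
    exact_mod_cast this
  set ρ : ℝ := 1 / ((D : ℝ) * T) ^ 2 - ((T : ℝ) - 1) * β with hρ
  let t₀ : Fin T := ⟨a, by omega⟩
  let D' : Fin T → Prop := fun t => a < t.val ∧ t.val < b
  let f : ι → (Fin T → Θ) → ℝ := fun c θ => ind (ok c a θ ∧ ok c b θ)
  let H : (Fin T → Θ) → (Fin T → Θ) → (Fin T → Θ) → ℝ := fun x η η' =>
    ∑ c, p c * (f c (mix D' x η) * f c (mix D' x η'))
  let g : (Fin T → Θ) → (Fin T → Θ) → ℝ := fun η η' => ind (¬ ∀ t, D' t → gen (η t) (η' t))
  have hf0 : ∀ c θ, 0 ≤ f c θ := fun c θ => ind_nonneg _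
  have hf1 : ∀ c θ, f c θ ≤ 1 := by
    intro c θ
    show ind _ ≤ 1
    unfold ind
    split <;> norm_num
  have hH1 : ∀ x η η', H x η η' ≤ 1 := by
    intro x η η'
    calc H x η η' ≤ ∑ c, p c * 1 := Finset.sum_le_sum fun c _ =>
          mul_le_mul_of_nonneg_left (mul_le_one₀ (hf1 c _) (hf0 c _) (hf1 c _)) (hp c)
      _ = 1 := by simp [hp1]
  -- total mass
  have hmass : N ^ 3 * (1 / ((D : ℝ) * T) ^ 2) ≤ ∑ x, ∑ η, ∑ η', H x η η' := by
    have h1 : ∑ x, ∑ η, ∑ η', H x η η' =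
        ∑ c, p c * ∑ x, ∑ η, ∑ η', f c (mix D' x η) * f c (mix D' x η') := by
      simp only [H, Finset.mul_sum]
      rw [Finset.sum_comm' (t' := Finset.univ) (s' := fun _ => Finset.univ) (by simp)]
      rw [Finset.sum_congr rfl fun η _ => Finset.sum_congr rfl fun x _ => Finset.sum_comm]
      rw [Finset.sum_congr rfl fun η _ => Finset.sum_comm]
      rw [Finset.sum_comm]
      refine Finset.sum_congr rfl fun c _ => ?_
      rw [Finset.sum_comm]
    have h2 : ∑ c, p c * (N * (∑ θ, f c θ) ^ 2) ≤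
        ∑ c, p c * ∑ x, ∑ η, ∑ η', f c (mix D' x η) * f c (mix D' x η') :=
      Finset.sum_le_sum fun c _ => mul_le_mul_of_nonneg_left (decouple D' (f c)) (hp c)
    have h3 : ∑ c, p c * (N * (∑ θ, f c θ) ^ 2) = N * ∑ c, p c * (∑ θ, f c θ) ^ 2 := by
      rw [Finset.mul_sum]
      refine Finset.sum_congr rfl fun c _ => ?_
      ring
    have h4 := jensen p (fun c => ∑ θ, f c θ) hp hp1
    have h5 : (N / (D * T)) ^ 2 ≤ (∑ c, p c * ∑ θ, f c θ) ^ 2 :=
      pow_le_pow_left₀ (by positivity) hsum 2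
    have h6 : N ^ 3 * (1 / ((D : ℝ) * T) ^ 2) = N * (N / (D * T)) ^ 2 := by
      field_simp
    rw [h1, h6]
    refine le_trans ?_ h2
    rw [h3]
    exact mul_le_mul_of_nonneg_left (h5.trans h4) hNpos.le
  have hg : ∑ η : Fin T → Θ, ∑ η' : Fin T → Θ, g η η' ≤ ((T : ℝ) - 1) * β * N ^ 2 := by
    have h1 := count_nongen (T := T) gen β hβ D'
    refine h1.trans ?_
    rw [← hN]
    have h2 : ((Finset.univ.filter D').card : ℝ) ≤ (T : ℝ) - 1 := by
      have h := count_places (T := T) hab hbT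
      convert h
    have h3 : ((Finset.univ.filter D').card : ℝ) * β ≤ ((T : ℝ) - 1) * β :=
      mul_le_mul_of_nonneg_right h2 hβ0
    refine le_trans (le_of_eq ?_) (mul_le_mul_of_nonneg_right h3 (by positivity : (0 : ℝ) ≤ N ^ 2))
    congr!
  have hdiff : N ^ 3 * ρ ≤ ∑ x, ∑ η, ∑ η', (H x η η' - g η η') := by
    have h1 : ∑ x : Fin T → Θ, ∑ η, ∑ η', (H x η η' - g η η') =
        ∑ x, ∑ η, ∑ η', H x η η' - N * ∑ η, ∑ η', g η η' := by
      have e1 : ∀ x, ∑ η, ∑ η', (H x η η' - g η η') =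
          ∑ η, ∑ η', H x η η' - ∑ η, ∑ η', g η η' := by
        intro x
        rw [← Finset.sum_sub_distrib]
        refine Finset.sum_congr rfl fun η _ => ?_
        rw [Finset.sum_sub_distrib]
      rw [Finset.sum_congr rfl fun x _ => e1 x, Finset.sum_sub_distrib, Finset.sum_const,
        nsmul_eq_mul, Finset.card_univ, ← hN]
    rw [h1]
    have h2 : N * ∑ η, ∑ η', g η η' ≤ N * (((T : ℝ) - 1) * β * N ^ 2) :=
      mul_le_mul_of_nonneg_left hg hNpos.le
    have h3 : N ^ 3 * ρ = N ^ 3 * (1 / ((D : ℝ) * T) ^ 2) - N * (((T : ℝ) - 1) * β * N ^ 2) := by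
      rw [hρ]
      ring
    linarith
  -- average over the place `a`
  have hupd := sum_update t₀ (fun x : Fin T → Θ => ∑ η, ∑ η', (H x η η' - g η η'))
  have htot : ∑ z : (Fin T → Θ) × (Fin T → Θ) × (Fin T → Θ), K * ρ ≤
      ∑ z : (Fin T → Θ) × (Fin T → Θ) × (Fin T → Θ),
        ∑ τ, (H (Function.update z.1 t₀ τ) z.2.1 z.2.2 - g z.2.1 z.2.2) := by
    rw [Fintype.sum_prod_type (f := fun z : (Fin T → Θ) × (Fin T → Θ) × (Fin T → Θ) =>
      ∑ τ, (H (Function.update z.1 t₀ τ) z.2.1 z.2.2 - g z.2.1 z.2.2))]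
    have e1 : ∀ x : Fin T → Θ, ∑ y : (Fin T → Θ) × (Fin T → Θ),
        ∑ τ, (H (Function.update x t₀ τ) y.1 y.2 - g y.1 y.2) =
        ∑ τ, ∑ η, ∑ η', (H (Function.update x t₀ τ) η η' - g η η') := by
      intro x
      rw [Fintype.sum_prod_type, Finset.sum_comm' (t' := Finset.univ) (s' := fun _ => Finset.univ)
        (by simp)]
      rw [Finset.sum_congr rfl fun η' _ => Finset.sum_comm]
      rw [Finset.sum_comm]
      refine Finset.sum_congr rfl fun τ _ => ?_
      rw [Finset.sum_comm]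
    rw [Finset.sum_congr rfl fun x _ => e1 x]
    simp only at hupd
    rw [hupd]
    rw [Finset.sum_const, nsmul_eq_mul, Finset.card_univ, Fintype.card_prod, Fintype.card_prod]
    push_cast
    have : K * (N ^ 3 * ρ) ≤ K * ∑ x, ∑ η, ∑ η', (H x η η' - g η η') :=
      mul_le_mul_of_nonneg_left hdiff hKpos.le
    calc N * (N * N) * (K * ρ) = K * (N ^ 3 * ρ) := by ring
      _ ≤ _ := this
  obtain ⟨z, -, hz⟩ := Finset.exists_le_of_sum_le Finset.univ_nonempty htot
  obtain ⟨x, η, η'⟩ := z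
  simp only at hz
  refine ⟨x, η, η', ?_⟩
  have hKρ : 0 < K * ρ := mul_pos hKpos hpos
  have hgen : ∀ t, D' t → gen (η t) (η' t) := by
    by_contra hcon
    have hg1 : g η η' = 1 := by
      show ind _ = 1
      unfold ind
      rw [if_pos hcon]
    have : ∑ τ, (H (Function.update x t₀ τ) η η' - g η η') ≤ 0 := by
      refine Finset.sum_nonpos fun τ _ => ?_
      rw [hg1]
      linarith [hH1 (Function.update x t₀ τ) η η']
    linarith
  have hg0 : g η η' = 0 := by
    show ind _ = 0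
    unfold ind
    rw [if_neg]
    exact fun h => h hgen
  refine ⟨fun t h1 h2 => hgen t ⟨h1, h2⟩, ?_⟩
  rw [hg0] at hz
  simp only [sub_zero] at hz
  refine hz.trans ?_
  have hw : ∀ (ζ : Fin T → Θ) (τ : Θ), mix D' (Function.update x t₀ τ) ζ = word a b x ζ τ := by
    intro ζ τ
    funext t
    unfold mix word
    by_cases h1 : t.val = a
    · have ht : t = t₀ := Fin.ext h1
      rw [if_pos h1, if_neg (by simp only [D']; omega), ht, Function.update_self]
    · rw [if_neg h1]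
      by_cases h2 : D' t
      · rw [if_pos h2, if_pos h2]
      · rw [if_neg h2, if_neg h2, Function.update_of_ne]
        intro h
        exact h1 (congrArg Fin.val h)
  have e1 : ∑ τ, H (Function.update x t₀ τ) η η' =
      ∑ c, p c * ∑ τ, f c (word a b x η τ) * f c (word a b x η' τ) := by
    simp only [H, hw, Finset.mul_sum]
    rw [Finset.sum_comm]
  rw [e1]
  refine Finset.sum_le_sum fun c _ => mul_le_mul_of_nonneg_left ?_ (hp c)
  refine Finset.sum_le_sum fun τ _ => ?_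
  show ind _ * ind _ ≤ ind _
  rw [ind_mul]
  unfold ind
  by_cases h : (ok c a (word a b x η τ) ∧ ok c b (word a b x η τ)) ∧
      ok c a (word a b x η' τ) ∧ ok c b (word a b x η' τ)
  · rw [if_pos h, if_pos ⟨h.1.1, h.2.2⟩]
  · rw [if_neg h]
    split <;> norm_num

end main

theorem count_sum_ind_eq {n : ℕ} (i : Fin n) : ∑ i', ind (i = i') = 1 := by
  rw [Finset.sum_eq_single i]
  · simp [ind]
  · intro b _ hb
    simp [ind, Ne.symm hb]
  · simp

theorem nongen_count' (q₁ q₂ m : ℕ) (hq₁ : 1 ≤ q₁) (hq₂ : 1 ≤ q₂) :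
    ∑ x : Fin q₁ × Fin q₂ × Fin m, ∑ y : Fin q₁ × Fin q₂ × Fin m,
      ind (¬ (x.1 ≠ y.1 ∧ x.2.1 ≠ y.2.1)) ≤
      (1 / (q₁ : ℝ) + 1 / (q₂ : ℝ)) * (Fintype.card (Fin q₁ × Fin q₂ × Fin m) : ℝ) ^ 2 := by
  have hq1 : (0 : ℝ) < q₁ := by exact_mod_cast hq₁
  have hq2 : (0 : ℝ) < q₂ := by exact_mod_cast hq₂
  have h1 : ∀ i : Fin q₁, ∑ y : Fin q₁ × Fin q₂ × Fin m, ind (i = y.1) = (q₂ : ℝ) * m := by
    intro i
    rw [Fintype.sum_prod_type]
    have : ∀ i' : Fin q₁, ∑ y : Fin q₂ × Fin m, ind (i = i') = ind (i = i') * ((q₂ : ℝ) * m) := by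
      intro i'
      rw [Finset.sum_const, nsmul_eq_mul, Finset.card_univ, Fintype.card_prod, Fintype.card_fin,
        Fintype.card_fin]
      push_cast
      ring
    rw [Finset.sum_congr rfl fun i' _ => this i', ← Finset.sum_mul]
    rw [count_sum_ind_eq, one_mul]
  have h2 : ∀ j : Fin q₂, ∑ y : Fin q₁ × Fin q₂ × Fin m, ind (j = y.2.1) = (q₁ : ℝ) * m := by
    intro j
    rw [Fintype.sum_prod_type]
    have h3 : ∑ y : Fin q₂ × Fin m, ind (j = y.1) = (m : ℝ) := by
      rw [Fintype.sum_prod_type]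
      have : ∀ j' : Fin q₂, ∑ _k : Fin m, ind (j = j') = ind (j = j') * (m : ℝ) := by
        intro j'
        rw [Finset.sum_const, nsmul_eq_mul, Finset.card_univ, Fintype.card_fin]
        ring
      rw [Finset.sum_congr rfl fun j' _ => this j', ← Finset.sum_mul]
      rw [count_sum_ind_eq, one_mul]
    have h4 : ∀ i : Fin q₁, ∑ y : Fin q₂ × Fin m,
        ind (j = ((i, y) : Fin q₁ × Fin q₂ × Fin m).2.1) = (m : ℝ) := fun _ => h3
    rw [Finset.sum_congr rfl fun i _ => h4 i, Finset.sum_const, nsmul_eq_mul, Finset.card_univ,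
      Fintype.card_fin]
  have hpt : ∀ x y : Fin q₁ × Fin q₂ × Fin m, ind (¬ (x.1 ≠ y.1 ∧ x.2.1 ≠ y.2.1)) ≤
      ind (x.1 = y.1) + ind (x.2.1 = y.2.1) := by
    intro x y
    unfold ind
    by_cases h1 : x.1 = y.1 <;> by_cases h2 : x.2.1 = y.2.1 <;> simp [h1, h2]
  have h3 : ∀ x : Fin q₁ × Fin q₂ × Fin m, ∑ y : Fin q₁ × Fin q₂ × Fin m,
      ind (¬ (x.1 ≠ y.1 ∧ x.2.1 ≠ y.2.1)) ≤ (q₂ : ℝ) * m + (q₁ : ℝ) * m := by
    intro x
    calc ∑ y : Fin q₁ × Fin q₂ × Fin m, ind (¬ (x.1 ≠ y.1 ∧ x.2.1 ≠ y.2.1))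
        ≤ ∑ y : Fin q₁ × Fin q₂ × Fin m, (ind (x.1 = y.1) + ind (x.2.1 = y.2.1)) :=
          Finset.sum_le_sum fun y _ => hpt x y
      _ = (q₂ : ℝ) * m + (q₁ : ℝ) * m := by
          rw [Finset.sum_add_distrib, h1, h2]
  have h4 : (Fintype.card (Fin q₁ × Fin q₂ × Fin m) : ℝ) = (q₁ : ℝ) * (q₂ * m) := by
    rw [Fintype.card_prod, Fintype.card_prod, Fintype.card_fin, Fintype.card_fin, Fintype.card_fin]
    push_cast
    ring
  calc ∑ x : Fin q₁ × Fin q₂ × Fin m, ∑ y : Fin q₁ × Fin q₂ × Fin m,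
        ind (¬ (x.1 ≠ y.1 ∧ x.2.1 ≠ y.2.1))
      ≤ ∑ _x : Fin q₁ × Fin q₂ × Fin m, ((q₂ : ℝ) * m + (q₁ : ℝ) * m) :=
        Finset.sum_le_sum fun x _ => h3 x
    _ = (q₁ : ℝ) * (q₂ * m) * ((q₂ : ℝ) * m + (q₁ : ℝ) * m) := by
        rw [Finset.sum_const, nsmul_eq_mul, Finset.card_univ, h4]
    _ = _ := by
        rw [h4]
        field_simp

end Pool.Agent.MNX
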