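import Pool.Agent.H98.NetMono
import Pool.Agent.H98.NetCore
import Pool.Agent.APM54.Graph
import Pool.Agent.APM54.Count

/-!
# Monotone networks for the (min,+) product: definitions

Definitions used in the statement of `Pool.Agent.Results.MP_885423_lc.MonotoneNetworks.result`,
besides those of `Pool.Agent.H98.NetDefs`.
-/

set_option autoImplicit false

namespace Pool.Agent.MNX

open Pool.Agent.APM54 Pool.Agent.H98.Net

/-- The weights `W` form a tripartite instance: every weight is `1` or `L`, and it is `1` only on
edges from the first `p` vertices to the next `m` vertices, and from these to the next `q`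
vertices. (This is the same as a pair of matrices with entries `1` and `L`.) -/
def Tripartite (p m q : ℕ) (L : ℝ) {n : ℕ} (W : Fin n → Fin n → ℝ) : Prop :=
  ∀ u v : Fin n, W u v = L ∨ (W u v = 1 ∧
    ((u.val < p ∧ p ≤ v.val ∧ v.val < p + m) ∨
      (p ≤ u.val ∧ u.val < p + m ∧ p + m ≤ v.val ∧ v.val < p + m + q)))

/-- On the weights `W` the network computes, up to the factor `α`, the distances from the first
`p` vertices to the `q` vertices which follow the first `p + m` ones. -/
def Right (p m q : ℕ) (α : ℝ) {n : ℕ} (C : Network n) (W : Fin n → Fin n → ℝ) : Prop :=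
  ∀ u v : Fin n, u.val < p → p + m ≤ v.val → v.val < p + m + q →
    dist W u v ≤ C.output W u v ∧ C.output W u v ≤ α * dist W u v

end Pool.Agent.MNX
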