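import Pool.Agent.MNX.Defs

/-!
# A network with `p m q` arguments
-/

set_option autoImplicit false

namespace Pool.Agent.MNX

open Finset Pool.Agent.APM54 Pool.Agent.H98.Net

/-- the vertex of a row -/
private def upRow {n : ℕ} (p m q : ℕ) (hn : p + m + q ≤ n) (i : Fin p) : Fin n :=
  ⟨i.val, by have := i.isLt; omega⟩

/-- the vertex of a middle index -/
private def upMid {n : ℕ} (p m q : ℕ) (hn : p + m + q ≤ n) (k : Fin m) : Fin n :=
  ⟨p + k.val, by have := k.isLt; omega⟩

/-- the vertex of a column -/
private def upCol {n : ℕ} (p m q : ℕ) (hn : p + m + q ≤ n) (j : Fin q) : Fin n :=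
  ⟨p + m + j.val, by have := j.isLt; omega⟩

/-- the network -/
private noncomputable def upNet {n : ℕ} (p m q : ℕ) (hm : 1 ≤ m) (hn : p + m + q ≤ n) (L : ℝ) :
    Network n where
  size := p * q
  ar := fun _ => m
  coef := fun t a v =>
    (if v = Sum.inl (upRow p m q hn (finProdFinEquiv.symm t).1, upMid p m q hn a) then 1 else 0) +
    (if v = Sum.inl (upMid p m q hn a, upCol p m q hn (finProdFinEquiv.symm t).2) then 1 else 0)
  coef_nonneg := by
    intro t a v
    refine add_nonneg ?_ ?_ <;> split_ifs <;> norm_num
  earlier := by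
    intro t a u h
    exact absurd (by simp) h
  op := fun _ x => min L ((univ : Finset (Fin m)).inf' ⟨⟨0, hm⟩, mem_univ _⟩ x)
  mono := by
    intro t x y hxy
    refine min_le_min le_rfl ?_
    refine (le_inf'_iff _ _).2 fun b _ => ?_
    exact (inf'_le _ (mem_univ b)).trans (hxy b)
  out := fun u v => if h : u.val < p ∧ p + m ≤ v.val ∧ v.val < p + m + q then
      Sum.inr (finProdFinEquiv (⟨u.val, h.1⟩, ⟨v.val - (p + m), by omega⟩))
    else Sum.inl (u, v)

/-- the output of the network -/
private theorem upNet_output {n : ℕ} (p m q : ℕ) (hm : 1 ≤ m) (hn : p + m + q ≤ n) (L : ℝ)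
    (W : Fin n → Fin n → ℝ) (u v : Fin n)
    (h : u.val < p ∧ p + m ≤ v.val ∧ v.val < p + m + q) :
    (upNet p m q hm hn L).output W u v =
      min L ((univ : Finset (Fin m)).inf' ⟨⟨0, hm⟩, mem_univ _⟩
        (fun a => W u (upMid p m q hn a) + W (upMid p m q hn a) v)) := by
  have h1 : (upNet p m q hm hn L).out u v =
      Sum.inr (finProdFinEquiv (⟨u.val, h.1⟩, ⟨v.val - (p + m), by omega⟩)) := dif_pos h
  unfold Network.output
  rw [h1]
  change (upNet p m q hm hn L).gate W _ = _
  rw [Network.gate_eq]
  change min L ((univ : Finset (Fin m)).inf' _ _) = _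
  congr 1
  refine inf'_congr _ rfl fun a _ => ?_
  have hu : upRow p m q hn (finProdFinEquiv.symm (finProdFinEquiv
      ((⟨u.val, h.1⟩ : Fin p), (⟨v.val - (p + m), by omega⟩ : Fin q)))).1 = u := by
    rw [Equiv.symm_apply_apply]
    rfl
  have hv : upCol p m q hn (finProdFinEquiv.symm (finProdFinEquiv
      ((⟨u.val, h.1⟩ : Fin p), (⟨v.val - (p + m), by omega⟩ : Fin q)))).2 = v := by
    rw [Equiv.symm_apply_apply]
    refine Fin.ext ?_
    change p + m + (v.val - (p + m)) = v.val
    omega
  change ∑ x : (Fin n × Fin n) ⊕ Fin (p * q), ((if x = Sum.inl (upRow p m q hn _,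
    upMid p m q hn a) then (1 : ℝ) else 0) + (if x = Sum.inl (upMid p m q hn a,
    upCol p m q hn _) then (1 : ℝ) else 0)) * (upNet p m q hm hn L).node W x = _
  rw [hu, hv]
  simp only [add_mul, ite_mul, one_mul, zero_mul, sum_add_distrib, sum_ite_eq',
    mem_univ, if_true]
  rfl

/-- PROOF. One gate for each pair `(i, j)` in `Fin p × Fin q` (gate number `i * q + j`), with the
`m` arguments `W (i, p + k) + W (p + k, p + m + j)` and the operation `x ↦ min L (⨅ k, x k)`
(`m ≥ 1`), i.e. `min L (Finset.univ.inf' _ x)`. For a tripartite `W` and `L ≥ 2` the distance is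
`2` if `W i k = W k j = 1` for some middle `k`, and `L` otherwise (`dist_le_walkWeight` with the
empty list and `[k]`; `le_dist` with the set `{i} ∪ {middle k with W i k = 1} ∪ {other columns}`,
as in `le_dist_of_not`, and a walk of weight `< 2` does not exist as all weights are `≥ 1` and the
edge `i → j` is long). -/
theorem upper (n p m q : ℕ) (hm : 1 ≤ m) (hn : p + m + q ≤ n) (L : ℝ) (hL : 2 ≤ L) :
    ∃ C : Network n, C.numArgs = p * m * q ∧
      ∀ W : Fin n → Fin n → ℝ, Tripartite p m q L W → Right p m q 1 C W := by
  refine ⟨upNet p m q hm hn L, ?_, ?_⟩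
  · unfold Network.numArgs
    change ∑ _ : Fin (p * q), m = _
    rw [sum_const, card_univ, Fintype.card_fin, smul_eq_mul]
    ring
  intro W hW u v hu hv1 hv2
  have h1 : ∀ x y, 1 ≤ W x y := by
    intro x y
    rcases hW x y with h | ⟨h, -⟩
    · rw [h]
      linarith
    · rw [h]
  have h0 : ∀ x y, 0 ≤ W x y := fun x y => zero_le_one.trans (h1 x y)
  have huv : u ≠ v := by
    rintro rfl
    omega
  have hWuv : W u v = L := by
    rcases hW u v with h | ⟨-, h | h⟩
    · exact h
    · omega
    · omega
  rw [upNet_output p m q hm hn L W u v ⟨hu, hv1, hv2⟩, one_mul]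
  constructor
  · refine le_min ?_ ((le_inf'_iff _ _).2 fun b _ => ?_)
    · have := dist_le_walkWeight h0 huv []
      rwa [show walkWeight W u [] v = L from hWuv] at this
    · exact dist_le_walkWeight h0 huv [upMid p m q hn b]
  · by_cases hk : ∃ k : Fin m, W u (upMid p m q hn k) = 1 ∧ W (upMid p m q hn k) v = 1
    · obtain ⟨k, hk1, hk2⟩ := hk
      have h2 : min L ((univ : Finset (Fin m)).inf' ⟨⟨0, hm⟩, mem_univ _⟩
          (fun a => W u (upMid p m q hn a) + W (upMid p m q hn a) v)) ≤ 2 := by
        refine (min_le_right _ _).trans ((inf'_le _ (mem_univ k)).trans ?_)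
        rw [hk1, hk2]
        norm_num
      refine h2.trans ?_
      unfold Pool.Agent.APM54.dist
      rw [if_neg huv]
      refine le_ciInf fun l => ?_
      rcases l with _ | ⟨x, l⟩
      · change 2 ≤ W u v
        rw [hWuv]
        exact hL
      · have h3 : (1 : ℝ) ≤ walkWeight W x l v := by
          rcases l with _ | ⟨y, l⟩
          · exact h1 x v
          · have h4 := walkWeight_nonneg h0 y l v
            have h5 := h1 x y
            change 1 ≤ W x y + walkWeight W y l v
            linarith
        have h6 := h1 u x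
        change 2 ≤ W u x + walkWeight W x l v
        linarith
    · push Not at hk
      refine (min_le_left _ _).trans ?_
      refine le_dist h0 {x | x = u ∨ W u x = 1 ∨ (p + m ≤ x.val ∧ x ≠ v)} ?_ u (Or.inl rfl) v ?_
      · intro x hx y hy
        have hy1 : y ≠ u := fun h => hy (Or.inl h)
        have hy2 : W u y ≠ 1 := fun h => hy (Or.inr (Or.inl h))
        have hy3 : p + m ≤ y.val → y = v := by
          intro h
          by_contra hyv
          exact hy (Or.inr (Or.inr ⟨h, hyv⟩))
        rcases hW x y with h | ⟨h, hxy⟩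
        · exact h.ge
        · exfalso
          rcases hx with rfl | hx | ⟨hx, -⟩
          · exact hy2 h
          · have hxm : p ≤ x.val ∧ x.val < p + m := by
              rcases hW u x with h7 | ⟨-, h7 | h7⟩
              · exfalso
                rw [h7] at hx
                linarith
              · exact h7.2
              · omega
            have hyv : y = v := hy3 (by omega)
            subst hyv
            have hxk : upMid p m q hn ⟨x.val - p, by omega⟩ = x := by
              refine Fin.ext ?_
              change p + (x.val - p) = x.val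
              omega
            have h8 := hk ⟨x.val - p, by omega⟩
            rw [hxk] at h8
            exact h8 hx h
          · omega
      · rintro (h | h | ⟨-, h⟩)
        · exact huv h.symm
        · rw [hWuv] at h
          linarith
        · exact h rfl

end Pool.Agent.MNX
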