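import Pool.Agent.MNX.Bound
import Pool.Agent.MNX.Count
import Pool.Agent.MNX.Upper

/-!
# The lower bound for random networks and programs
-/

set_option autoImplicit false

namespace Pool.Agent.MNX

open Finset Pool.Agent.APM54 Pool.Agent.H98.Net
open scoped Classical

/-- the numbers of the vertices -/
private def place (p m T q₁ q₂ : ℕ) :
    (Fin T × Fin q₁) ⊕ Fin m ⊕ (Fin T × Fin q₂) → ℕ
  | Sum.inl r => (finProdFinEquiv r).val
  | Sum.inr (Sum.inl k) => p + k.val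
  | Sum.inr (Sum.inr s) => p + m + (finProdFinEquiv s).val

private theorem exists_emb (n p m q T q₁ q₂ : ℕ) (hn : p + m + q ≤ n) (h1 : T * q₁ ≤ p)
    (h2 : T * q₂ ≤ q) :
    ∃ e : ((Fin T × Fin q₁) ⊕ Fin m ⊕ (Fin T × Fin q₂)) ↪ Fin n,
      (∀ r, (row e r).val < p) ∧ (∀ k, p ≤ (mid e k).val ∧ (mid e k).val < p + m) ∧
      (∀ s, p + m ≤ (col e s).val ∧ (col e s).val < p + m + q) := by
  have b1 : ∀ r : Fin T × Fin q₁, (finProdFinEquiv r).val < p := fun r =>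
    lt_of_lt_of_le (finProdFinEquiv r).isLt h1
  have b2 : ∀ s : Fin T × Fin q₂, (finProdFinEquiv s).val < q := fun s =>
    lt_of_lt_of_le (finProdFinEquiv s).isLt h2
  have hlt : ∀ z, place p m T q₁ q₂ z < n := by
    rintro (r | k | s)
    · have := b1 r
      simp only [place]
      omega
    · have := k.isLt
      simp only [place]
      omega
    · have := b2 s
      simp only [place]
      omega
  refine ⟨⟨fun z => ⟨place p m T q₁ q₂ z, hlt z⟩, ?_⟩, ?_, ?_, ?_⟩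
  · intro z z' h
    have h : place p m T q₁ q₂ z = place p m T q₁ q₂ z' := congrArg Fin.val h
    rcases z with r | k | s <;> rcases z' with r' | k' | s' <;> simp only [place] at h
    · rw [finProdFinEquiv.injective (Fin.ext h)]
    · have := b1 r
      omega
    · have := b1 r
      omega
    · have := b1 r'
      omega
    · have : k = k' := Fin.ext (by omega)
      rw [this]
    · have := k.isLt
      omega
    · have := b1 r'
      omega
    · have := k'.isLt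
      omega
    · have : s = s' := finProdFinEquiv.injective (Fin.ext (by omega))
      rw [this]
  · intro r
    exact b1 r
  · intro k
    exact ⟨Nat.le_add_right _ _, Nat.add_lt_add_left k.isLt p⟩
  · intro s
    exact ⟨Nat.le_add_right _ _, Nat.add_lt_add_left (b2 s) (p + m)⟩

/-- random networks -/
theorem lower (n p m q D T : ℕ) (hm : 2 ≤ m) (hn : p + m + q ≤ n) (hD : 1 ≤ D)
    (hT : T + 1 = 2 * D) (α L : ℝ) (hα : 1 ≤ α) (hL : 2 * α < L)
    {ι : Type} [Fintype ι] (C : ι → Network n) (pr : ι → ℝ)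
    (hp : ∀ c, 0 ≤ pr c) (hp1 : ∑ c, pr c = 1)
    (hC : ∀ W : Fin n → Fin n → ℝ, Tripartite p m q L W →
      (1 : ℝ) / D ≤ ∑ c, pr c * ind (Right p m q α (C c) W)) :
    (m : ℝ) * ((p / T : ℕ) * (q / T : ℕ) / ((D : ℝ) * T) ^ 2 -
      ((T : ℝ) - 1) * ((p / T : ℕ) + (q / T : ℕ))) ≤ ∑ c, pr c * (C c).numArgs := by
  have hrhs : (0 : ℝ) ≤ ∑ c, pr c * (C c).numArgs :=
    Finset.sum_nonneg fun c _ => mul_nonneg (hp c) (Nat.cast_nonneg _)
  by_cases hle : (m : ℝ) * ((p / T : ℕ) * (q / T : ℕ) / ((D : ℝ) * T) ^ 2 -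
      ((T : ℝ) - 1) * ((p / T : ℕ) + (q / T : ℕ))) ≤ 0
  · exact hle.trans hrhs
  have hT1 : 1 ≤ T := by omega
  obtain ⟨q₁, hq₁⟩ : ∃ q₁, q₁ = p / T := ⟨_, rfl⟩
  obtain ⟨q₂, hq₂⟩ : ∃ q₂, q₂ = q / T := ⟨_, rfl⟩
  rw [← hq₁, ← hq₂] at hle ⊢
  push Not at hle
  have hmr : (0 : ℝ) < m := by
    have : (2 : ℝ) ≤ m := by exact_mod_cast hm
    linarith
  have hTr : (1 : ℝ) ≤ T := by exact_mod_cast hT1
  have hDr : (1 : ℝ) ≤ D := by exact_mod_cast hD
  have hprod : (0 : ℝ) < (q₁ : ℝ) * q₂ := by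
    by_contra hcon
    have h0 : (q₁ : ℝ) * q₂ = 0 := le_antisymm (not_lt.1 hcon) (by positivity)
    rw [h0, zero_div, zero_sub] at hle
    have h1 : 0 ≤ ((T : ℝ) - 1) * ((q₁ : ℝ) + q₂) :=
      mul_nonneg (by linarith) (by positivity)
    have h2 : (m : ℝ) * -(((T : ℝ) - 1) * ((q₁ : ℝ) + q₂)) ≤ 0 := by
      rw [mul_neg]
      exact neg_nonpos.2 (mul_nonneg hmr.le h1)
    linarith
  have hq₁r : (0 : ℝ) < q₁ := by
    rcases (Nat.cast_nonneg (α := ℝ) q₁).eq_or_lt with h | h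
    · rw [← h, zero_mul] at hprod
      exact absurd hprod (lt_irrefl _)
    · exact h
  have hq₂r : (0 : ℝ) < q₂ := by
    rcases (Nat.cast_nonneg (α := ℝ) q₂).eq_or_lt with h | h
    · rw [← h, mul_zero] at hprod
      exact absurd hprod (lt_irrefl _)
    · exact h
  have hq₁1 : 1 ≤ q₁ := by exact_mod_cast hq₁r
  have hq₂1 : 1 ≤ q₂ := by exact_mod_cast hq₂r
  obtain ⟨e, he1, he2, he3⟩ := exists_emb n p m q T q₁ q₂ hn
    (by rw [hq₁]; exact Nat.mul_div_le p T) (by rw [hq₂]; exact Nat.mul_div_le q T)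
  have : Nonempty (Fin q₁ × Fin q₂ × Fin m) :=
    ⟨(⟨0, by omega⟩, ⟨0, by omega⟩, ⟨0, by omega⟩)⟩
  obtain ⟨K, hK⟩ : ∃ K : ℝ, K = (Fintype.card (Fin q₁ × Fin q₂ × Fin m) : ℝ) := ⟨_, rfl⟩
  have hKval : K = (q₁ : ℝ) * (q₂ * m) := by
    rw [hK, Fintype.card_prod, Fintype.card_prod, Fintype.card_fin, Fintype.card_fin,
      Fintype.card_fin]
    push_cast
    ring
  have hKpos : 0 < K := by
    rw [hKval]
    positivity
  -- the inputs are tripartite
  have htri : ∀ (A : Fin T × Fin q₁ → Fin m → Prop) (B : Fin m → Fin T × Fin q₂ → Prop),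
      Tripartite p m q L (wt e L A B) := by
    intro A B u v
    by_cases hS : Short e A B u v
    · right
      refine ⟨by unfold wt; rw [if_pos hS], ?_⟩
      rcases hS with ⟨r, k, h1, h2, -⟩ | ⟨k, s, h1, h2, -⟩
      · left
        rw [← h1, ← h2]
        exact ⟨he1 r, he2 k⟩
      · right
        rw [← h1, ← h2]
        exact ⟨(he2 k).1, (he2 k).2, he3 s⟩
    · left
      unfold wt
      rw [if_neg hS]
  have hmain : K * (1 / ((D : ℝ) ^ 2 * (T : ℝ) ^ 2) -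
      ((T : ℝ) - 1) * (1 / (q₁ : ℝ) + 1 / (q₂ : ℝ))) =
      (m : ℝ) * (q₁ * q₂ / ((D : ℝ) * T) ^ 2 - ((T : ℝ) - 1) * (q₁ + q₂)) := by
    rw [hKval]
    have hD0 : (D : ℝ) ≠ 0 := by linarith
    have hT0 : (T : ℝ) ≠ 0 := by linarith
    field_simp
    ring
  have hpos : 0 < 1 / ((D : ℝ) ^ 2 * (T : ℝ) ^ 2) -
      ((T : ℝ) - 1) * (1 / (q₁ : ℝ) + 1 / (q₂ : ℝ)) := by
    rw [← hmain] at hle
    exact (mul_pos_iff_of_pos_left hKpos).1 hle
  obtain ⟨a, b, hab, hbT, x, η, η', hgen, hbound⟩ := count' (Θ := Fin q₁ × Fin q₂ × Fin m) hD hT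
    pr hp hp1 (fun c a θ => Right p m q α (C c) (wt e L (wA a θ) (wB a θ)))
    (fun a _ θ => hC _ (htri _ _)) (fun x y => x.1 ≠ y.1 ∧ x.2.1 ≠ y.2.1)
    (1 / (q₁ : ℝ) + 1 / (q₂ : ℝ)) (by positivity) (nongen_count' q₁ q₂ m hq₁1 hq₂1) hpos
  rw [← hK, hmain] at hbound
  refine hbound.trans (Finset.sum_le_sum fun c _ => mul_le_mul_of_nonneg_left ?_ (hp c))
  rw [sum_ind]
  have h := net_bound e (C c) hα hL hm hab hbT x η η' hgen
    (Finset.univ.filter fun τ : Fin q₁ × Fin q₂ × Fin m =>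
      Right p m q α (C c) (wt e L (wA a (word a b x η τ)) (wB a (word a b x η τ))) ∧
      Right p m q α (C c) (wt e L (wA b (word a b x η' τ)) (wB b (word a b x η' τ))))
    (fun τ hτ r s => by
      obtain ⟨-, h1, h2⟩ := Finset.mem_filter.1 hτ
      exact ⟨h1 _ _ (he1 r) (he3 s).1 (he3 s).2, h2 _ _ (he1 r) (he3 s).1 (he3 s).2⟩)
  have h' : ((Finset.univ.filter fun τ : Fin q₁ × Fin q₂ × Fin m =>
      Right p m q α (C c) (wt e L (wA a (word a b x η τ)) (wB a (word a b x η τ))) ∧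
      Right p m q α (C c) (wt e L (wA b (word a b x η' τ)) (wB b (word a b x η' τ)))).card : ℝ) ≤
      (C c).numArgs := by exact_mod_cast h
  refine le_trans (le_of_eq ?_) h'
  congr!

end Pool.Agent.MNX
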