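import Pool.Agent.MNX.Main

/-!
# Programs with tests, and the case of three equal classes
-/

set_option autoImplicit false

namespace Pool.Agent.MNX

open Finset Pool.Agent.APM54 Pool.Agent.H98.Net
open scoped Classical

/-- random guesses of the answers -/
theorem lower_program (n p m q r D X T : ℕ) (hm : 2 ≤ m) (hn : p + m + q ≤ n) (hD : 1 ≤ D)
    (hX : X = 2 ^ r * D) (hT : T + 1 = 2 * X) (α L : ℝ) (hα : 1 ≤ α) (hL : 2 * α < L)
    {ι : Type} [Fintype ι] (P : ι → Program n r) (pr : ι → ℝ)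
    (hp : ∀ c, 0 ≤ pr c) (hp1 : ∑ c, pr c = 1)
    (hP : ∀ W : Fin n → Fin n → ℝ, Tripartite p m q L W →
      (1 : ℝ) / D ≤ ∑ c ∈ Finset.univ.filter
        (fun c => Right p m q α ((P c).net ((P c).answers W)) W), pr c) :
    (m : ℝ) * ((p / T : ℕ) * (q / T : ℕ) / ((X : ℝ) * T) ^ 2 -
      ((T : ℝ) - 1) * ((p / T : ℕ) + (q / T : ℕ))) ≤ ∑ c, pr c * (P c).numArgs := by
  have h2r : (0 : ℝ) < 2 ^ r := by positivity
  have hG : (Fintype.card (Fin r → Bool) : ℝ) = 2 ^ r := by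
    rw [Fintype.card_fun, Fintype.card_bool, Fintype.card_fin]
    push_cast
    rfl
  have hX1 : 1 ≤ X := by
    rw [hX]
    exact Nat.mul_pos (by positivity) hD
  have key := lower n p m q X T hm hn hX1 hT α L hα hL
    (ι := ι × (Fin r → Bool)) (fun z => (P z.1).net z.2)
    (fun z => pr z.1 / 2 ^ r) (fun z => div_nonneg (hp _) h2r.le)
    (by
      rw [Fintype.sum_prod_type]
      refine Eq.trans (Finset.sum_congr rfl fun c _ => ?_) hp1
      show ∑ _s : Fin r → Bool, pr c / 2 ^ r = pr c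
      rw [Finset.sum_const, nsmul_eq_mul, Finset.card_univ, hG]
      field_simp)
    (by
      intro W hW
      rw [Fintype.sum_prod_type]
      have h1 := hP W hW
      have h2 : ∑ c ∈ Finset.univ.filter
          (fun c => Right p m q α ((P c).net ((P c).answers W)) W), pr c =
          ∑ c, pr c * ind (Right p m q α ((P c).net ((P c).answers W)) W) := by
        rw [Finset.sum_filter]
        refine Finset.sum_congr rfl fun c _ => ?_
        unfold ind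
        split <;> simp
      rw [h2] at h1
      have h3 : ∀ c, pr c * ind (Right p m q α ((P c).net ((P c).answers W)) W) / 2 ^ r ≤
          ∑ s : Fin r → Bool, pr c / 2 ^ r * ind (Right p m q α ((P c).net s) W) := by
        intro c
        have h4 : pr c * ind (Right p m q α ((P c).net ((P c).answers W)) W) / 2 ^ r =
            pr c / 2 ^ r * ind (Right p m q α ((P c).net ((P c).answers W)) W) := by
          ring
        rw [h4]
        exact Finset.single_le_sum (f := fun s : Fin r → Bool =>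
          pr c / 2 ^ r * ind (Right p m q α ((P c).net s) W))
          (fun s _ => mul_nonneg (div_nonneg (hp c) h2r.le) (ind_nonneg _))
          (Finset.mem_univ _)
      have hDpos : (0 : ℝ) < D := by exact_mod_cast hD
      have h5 : (1 : ℝ) / ((X : ℕ) : ℝ) = (1 / D) / 2 ^ r := by
        rw [hX]
        push_cast
        field_simp
      rw [h5]
      calc (1 / (D : ℝ)) / 2 ^ r ≤
          (∑ c, pr c * ind (Right p m q α ((P c).net ((P c).answers W)) W)) / 2 ^ r :=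
            div_le_div_of_nonneg_right h1 h2r.le
        _ = ∑ c, pr c * ind (Right p m q α ((P c).net ((P c).answers W)) W) / 2 ^ r := by
            rw [Finset.sum_div]
        _ ≤ _ := Finset.sum_le_sum fun c _ => h3 c)
  refine key.trans ?_
  rw [Fintype.sum_prod_type]
  refine Finset.sum_le_sum fun c _ => ?_
  have h6 : ∀ s : Fin r → Bool, pr c / 2 ^ r * (((P c).net s).numArgs : ℝ) ≤
      pr c / 2 ^ r * ((P c).numArgs : ℝ) := by
    intro s
    refine mul_le_mul_of_nonneg_left ?_ (div_nonneg (hp c) h2r.le)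
    have : ((P c).net s).numArgs ≤ (P c).numArgs :=
      Finset.le_sup (f := fun s => ((P c).net s).numArgs) (Finset.mem_univ s)
    exact_mod_cast this
  calc ∑ s : Fin r → Bool, pr c / 2 ^ r * (((P c).net s).numArgs : ℝ)
      ≤ ∑ _s : Fin r → Bool, pr c / 2 ^ r * ((P c).numArgs : ℝ) :=
        Finset.sum_le_sum fun s _ => h6 s
    _ = pr c * (P c).numArgs := by
        rw [Finset.sum_const, nsmul_eq_mul, Finset.card_univ, hG]
        field_simp

/-- three equal classes -/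
theorem arith (n X T : ℕ) (hX1 : 1 ≤ X) (hT : T + 1 = 2 * X) (hn : 200 * X ^ 6 ≤ n) :
    (n : ℝ) ^ 3 ≤ 1000 * (X : ℝ) ^ 6 * ((n / 3 : ℕ) * ((n / 3 / T : ℕ) * (n / 3 / T : ℕ) /
      ((X : ℝ) * T) ^ 2 - ((T : ℝ) - 1) * ((n / 3 / T : ℕ) + (n / 3 / T : ℕ)))) := by
  have hT1 : 1 ≤ T := by omega
  obtain ⟨κ, hκ⟩ : ∃ κ, κ = n / 3 := ⟨_, rfl⟩
  obtain ⟨y, hy⟩ : ∃ y, y = n / 3 / T := ⟨_, rfl⟩
  rw [← hy, ← hκ]
  rw [← hκ] at hy
  have h1 : n ≤ 3 * κ + 2 := by omega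
  have h2 : 3 * κ ≤ n := by omega
  have h3 : κ < T * (y + 1) := by
    rw [hy]
    exact Nat.lt_mul_div_succ κ (by omega)
  have h4 : T * y ≤ κ := by
    rw [hy]
    exact Nat.mul_div_le κ T
  have hXr : (1 : ℝ) ≤ X := by exact_mod_cast hX1
  have hTr : (1 : ℝ) ≤ T := by exact_mod_cast hT1
  have hTX : (T : ℝ) ≤ 2 * X := by
    have : T ≤ 2 * X := by omega
    exact_mod_cast this
  have hnr : (200 : ℝ) * (X : ℝ) ^ 6 ≤ n := by exact_mod_cast hn
  have hX6 : (X : ℝ) ≤ (X : ℝ) ^ 6 := le_self_pow₀ hXr (by norm_num)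
  have h1r : (n : ℝ) ≤ 3 * κ + 2 := by exact_mod_cast h1
  have h2r : 3 * (κ : ℝ) ≤ n := by exact_mod_cast h2
  have h3r : (κ : ℝ) + 1 ≤ T * (y + 1) := by exact_mod_cast h3
  have h4r : (T : ℝ) * y ≤ κ := by exact_mod_cast h4
  have hn0 : (0 : ℝ) ≤ n := Nat.cast_nonneg n
  have hy0 : (0 : ℝ) ≤ y := Nat.cast_nonneg y
  have hn200 : (200 : ℝ) ≤ n := by
    have : (1 : ℝ) ≤ (X : ℝ) ^ 6 := one_le_pow₀ hXr
    linarith
  -- the first term
  have e1 : (97 / 100 : ℝ) * n ≤ 3 * (T * y) := by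
    have : (n : ℝ) ≤ 3 * (T * (y + 1)) := by linarith
    have h5 : 3 * (T : ℝ) ≤ 3 / 100 * n := by linarith
    have h6 : 3 * ((T : ℝ) * (y + 1)) = 3 * (T * y) + 3 * T := by ring
    linarith
  have e2 : ((97 / 100 : ℝ) * n) ^ 2 ≤ (3 * (T * y)) ^ 2 :=
    pow_le_pow_left₀ (by positivity) e1 2
  have e3 : (T : ℝ) ^ 4 ≤ 16 * (X : ℝ) ^ 4 := by
    calc (T : ℝ) ^ 4 ≤ (2 * X) ^ 4 := pow_le_pow_left₀ (by linarith) hTX 4
      _ = _ := by ring
  have hXT : (0 : ℝ) < ((X : ℝ) * T) ^ 2 := by positivity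
  have e4 : (65 / 10000 : ℝ) * (n : ℝ) ^ 2 ≤ (X : ℝ) ^ 6 * ((y : ℝ) * y / ((X : ℝ) * T) ^ 2) := by
    have e5 : (X : ℝ) ^ 6 * ((y : ℝ) * y / ((X : ℝ) * T) ^ 2) = (X : ℝ) ^ 4 * y ^ 2 / T ^ 2 := by
      have hX0 : (X : ℝ) ≠ 0 := by linarith
      have hT0 : (T : ℝ) ≠ 0 := by linarith
      field_simp
    rw [e5, le_div_iff₀ (by positivity)]
    have e6 : (T : ℝ) ^ 4 * y ^ 2 ≤ 16 * ((X : ℝ) ^ 4 * y ^ 2) := by
      have := mul_le_mul_of_nonneg_right e3 (sq_nonneg (y : ℝ))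
      linarith
    have e7 : (3 * ((T : ℝ) * y)) ^ 2 * T ^ 2 = 9 * (T ^ 4 * y ^ 2) := by ring
    have e8 : ((97 / 100 : ℝ) * n) ^ 2 * T ^ 2 ≤ 9 * (T ^ 4 * y ^ 2) := by
      rw [← e7]
      exact mul_le_mul_of_nonneg_right e2 (sq_nonneg _)
    have e9 : (0 : ℝ) ≤ (n : ℝ) ^ 2 * T ^ 2 := by positivity
    nlinarith
  -- the second term
  have e10 : (X : ℝ) ^ 6 * (((T : ℝ) - 1) * (y + y)) ≤ (n : ℝ) ^ 2 / 300 := by
    have e11 : ((T : ℝ) - 1) * (y + y) ≤ 2 / 3 * n := by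
      have : ((T : ℝ) - 1) * (y + y) = 2 * (T * y) - 2 * y := by ring
      linarith
    have e12 : (0 : ℝ) ≤ ((T : ℝ) - 1) * (y + y) := mul_nonneg (by linarith) (by linarith)
    calc (X : ℝ) ^ 6 * (((T : ℝ) - 1) * (y + y)) ≤ (n / 200) * (2 / 3 * n) :=
          mul_le_mul (by linarith) e11 e12 (by positivity)
      _ = _ := by ring
  have e13 : (316 / 100000 : ℝ) * (n : ℝ) ^ 2 ≤
      (X : ℝ) ^ 6 * ((y : ℝ) * y / ((X : ℝ) * T) ^ 2 - ((T : ℝ) - 1) * (y + y)) := by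
    rw [mul_sub]
    nlinarith [sq_nonneg (n : ℝ)]
  have e14 : (33 / 100 : ℝ) * n ≤ κ := by linarith
  have e15 : ((33 / 100 : ℝ) * n) * ((316 / 100000 : ℝ) * (n : ℝ) ^ 2) ≤
      κ * ((X : ℝ) ^ 6 * ((y : ℝ) * y / ((X : ℝ) * T) ^ 2 - ((T : ℝ) - 1) * (y + y))) :=
    mul_le_mul e14 e13 (by positivity) (Nat.cast_nonneg κ)
  have e16 : (0 : ℝ) ≤ (n : ℝ) ^ 3 := by positivity
  have e17 : 1000 * (X : ℝ) ^ 6 * (κ * ((y : ℝ) * y / ((X : ℝ) * T) ^ 2 -
      ((T : ℝ) - 1) * (y + y))) = 1000 * (κ * ((X : ℝ) ^ 6 *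
        ((y : ℝ) * y / ((X : ℝ) * T) ^ 2 - ((T : ℝ) - 1) * (y + y)))) := by ring
  rw [e17]
  nlinarith

end Pool.Agent.MNX
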